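import Pool.Agent.Run7.h100.QT.Fld
import Pool.Agent.Run7.h100.QT.NotP

/-!
In characteristic two there is a smooth projective threefold, not isomorphic to a projective
space, with a nonzero map from an ample line bundle to its tangent bundle.
-/

open AlgebraicGeometry CategoryTheory
open Pool.Agent.Helper198.CurveFamily Run7.h100.QT

namespace Pool.Agent.Results.MP_63fcef_ag.QuadricThreefold

/-- Over every algebraically closed field `k` of characteristic two (and such fields exist) there
is a smooth projective integral threefold `X` over `k`, not isomorphic over `k` to any projective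
space, with an ample line bundle `L` and a nonzero morphism from `L` to the tangent sheaf. -/
theorem result :
    (∃ (k : Type) (_ : Field k), IsAlgClosed k ∧ CharP k 2) ∧
    ∀ (k : Type) [Field k] [IsAlgClosed k] [CharP k 2],
      ∃ (X : Scheme.{0}) (s : X ⟶ Spec (.of k)),
        IsIntegral X ∧ SmoothOfRelativeDimension 3 s ∧ IsProjective s ∧
        (∀ n : ℕ, ¬ ∃ e : X ≅ PSpace n k, e.hom ≫ PSpace.str n k = s) ∧
        ∃ L : LB X, L.IsAmple ∧ ∃ Φ : L.MapT s, Φ.NonZero := by
  refine ⟨⟨AlgebraicClosure (ZMod 2), inferInstance, inferInstance, inferInstance⟩, ?_⟩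
  intro k _ _ _
  exact ⟨Qd k, Qs k, isIntegral_Q k, smooth_Q k, isProjective_Q k, not_iso_P k, O1 k, O1_ample k,
    exists_nonZero k⟩

end Pool.Agent.Results.MP_63fcef_ag.QuadricThreefold
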